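import Pool.Agent.Helper40.AC.Stmts

/-!
# Project AC: packet P33

`MM` is a compact smooth submanifold of dimension 6.
-/

open scoped ContDiff Topology Matrix
open Pool.Agent.Helper40.AC

namespace Pool.Agent.Helper23.AC

noncomputable section

/-- A projector of trace 2 has the same kernel as a surjection onto `ℝ²`. -/
theorem exists_T (P : Matrix (Fin 4) (Fin 4) ℝ) (hP : P * P = P) (ht : P.trace = 2) :
    ∃ T : (Fin 4 → ℝ) →ₗ[ℝ] (Fin 2 → ℝ), Function.Surjective T ∧ ∀ u, T u = 0 ↔ P *ᵥ u = 0 := by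
  have hidem : IsIdempotentElem (Matrix.toLin' P) := by
    unfold IsIdempotentElem
    rw [Module.End.mul_eq_comp, ← Matrix.toLin'_mul, hP]
  have hfr : Module.finrank ℝ (LinearMap.range (Matrix.toLin' P)) = 2 := by
    have h1 := (LinearMap.IsIdempotentElem.isProj_range _ hidem).trace
    rw [Matrix.trace_toLin'_eq, ht] at h1
    exact_mod_cast h1.symm
  let e : LinearMap.range (Matrix.toLin' P) ≃ₗ[ℝ] (Fin 2 → ℝ) :=
    LinearEquiv.ofFinrankEq _ _ (by rw [hfr]; simp)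
  refine ⟨e.toLinearMap ∘ₗ (Matrix.toLin' P).rangeRestrict, ?_, ?_⟩
  · exact e.surjective.comp (Matrix.toLin' P).surjective_rangeRestrict
  · intro u
    rw [LinearMap.comp_apply]
    constructor
    · intro h
      have h2 : (Matrix.toLin' P).rangeRestrict u = 0 := e.map_eq_zero_iff.1 h
      have h3 := congrArg Subtype.val h2
      simpa using h3
    · intro h
      have h2 : (Matrix.toLin' P).rangeRestrict u = 0 := by
        apply Subtype.ext
        simpa using h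
      rw [h2]
      simp

/-- The smoothness of the Nash map. -/
theorem smooth_aT (h1 : S_ROOT) {c₁ s₁ c₂ s₂ : (Idx → ℝ) → ℝ} (hc₁ : ContDiff ℝ ∞ c₁)
    (hs₁ : ContDiff ℝ ∞ s₁) (hc₂ : ContDiff ℝ ∞ c₂) (hs₂ : ContDiff ℝ ∞ s₂) (i : Fin 3) :
    ContDiff ℝ ∞ fun z => aT (c₁ z) (s₁ z) (c₂ z) (s₂ z) i := by
  have hg : ContDiff ℝ ∞ fun z => gg (c₁ z) (s₁ z) (c₂ z) (s₂ z) := by
    unfold gg
    fun_prop
  have ht : ContDiff ℝ ∞ fun z => rootF (gg (c₁ z) (s₁ z) (c₂ z) (s₂ z)) := h1.1.comp hg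
  unfold aT
  refine ContDiff.div ?_ ?_ fun z => (h1.2.2.1 _ _ _ _ _).ne'
  · fin_cases i
    · simp only [bv, fR, fI, hR, hI, kR, kI, Fin.zero_eta, Matrix.cons_val_zero]
      fun_prop
    · simp only [bv, fR, fI, hR, hI, kR, kI, Fin.mk_one, Matrix.cons_val_one, Matrix.cons_val_zero]
      fun_prop
    · simp only [bv, fR, fI, hR, hI, kR, kI, Fin.reduceFinMk, Matrix.cons_val]
      fun_prop
  · unfold Nn fR fI hR hI kR kI
    fun_prop

theorem unit_aT (h1 : S_ROOT) {c₁ s₁ c₂ s₂ : ℝ} (hc : c₁ ^ 2 + s₁ ^ 2 = 1)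
    (hc' : c₂ ^ 2 + s₂ ^ 2 = 1) : ∑ i, aT c₁ s₁ c₂ s₂ i ^ 2 = 1 := by
  have h2 := h1.2.2.2 c₁ s₁ c₂ s₂ (rootF (gg c₁ s₁ c₂ s₂)) hc hc' (rootF_spec _)
  have h3 := h1.2.2.1 c₁ s₁ c₂ s₂ (rootF (gg c₁ s₁ c₂ s₂))
  unfold aT
  simp only [div_pow]
  rw [← Finset.sum_div, h2]
  exact div_self (pow_ne_zero _ h3.ne')

theorem smooth_cc (j : Fin 4) : ContDiff ℝ ∞ fun z : Idx → ℝ => cc z j :=
  contDiff_apply ℝ ℝ _

theorem smooth_ss (j : Fin 4) : ContDiff ℝ ∞ fun z : Idx → ℝ => ss z j :=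
  contDiff_apply ℝ ℝ _

theorem smooth_ww (j : Fin 5) : ContDiff ℝ ∞ fun z : Idx → ℝ => ww z j :=
  contDiff_apply ℝ ℝ _

theorem smooth_a1 (h1 : S_ROOT) (i : Fin 3) : ContDiff ℝ ∞ fun z => a1 z i :=
  smooth_aT h1 (smooth_cc 0) (smooth_ss 0) (smooth_cc 1) (smooth_ss 1) i

theorem smooth_a2 (h1 : S_ROOT) (i : Fin 3) : ContDiff ℝ ∞ fun z => a2 z i :=
  smooth_aT h1 (smooth_cc 2) (smooth_ss 2) (smooth_cc 3) (smooth_ss 3) i

/-- The projector at `z`. -/
def PP (z : Idx → ℝ) : Matrix (Fin 4) (Fin 4) ℝ := pR (a1 z) (a2 z)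

theorem smooth_LL {a : (Idx → ℝ) → Fin 3 → ℝ} (ha : ∀ i, ContDiff ℝ ∞ fun z => a z i)
    (i j : Fin 4) : ContDiff ℝ ∞ fun z => LL (a z) i j := by
  have h0 := ha 0
  have h1 := ha 1
  have h2 := ha 2
  fin_cases i <;> fin_cases j <;> simp [LL] <;> fun_prop

theorem smooth_RR {a : (Idx → ℝ) → Fin 3 → ℝ} (ha : ∀ i, ContDiff ℝ ∞ fun z => a z i)
    (i j : Fin 4) : ContDiff ℝ ∞ fun z => RR (a z) i j := by
  have h0 := ha 0
  have h1 := ha 1
  have h2 := ha 2
  fin_cases i <;> fin_cases j <;> simp [RR] <;> fun_prop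

theorem smooth_PP (h1 : S_ROOT) (i j : Fin 4) : ContDiff ℝ ∞ fun z => PP z i j := by
  unfold PP pR
  simp only [Matrix.smul_apply, Matrix.sub_apply, Matrix.mul_apply, smul_eq_mul]
  refine contDiff_const.mul (contDiff_const.sub ?_)
  exact ContDiff.sum fun k _ =>
    (smooth_LL (smooth_a1 h1) i k).mul (smooth_RR (smooth_a2 h1) k j)

theorem quat_PP (h1 : S_ROOT) (h2 : S_QUAT) {z : Idx → ℝ} (hz : z ∈ VV) :
    PP z * PP z = PP z ∧ (PP z)ᵀ = PP z ∧ (PP z).trace = 2 ∧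
      ∀ v : Fin 4 → ℝ, (LL (a1 z) + RR (a2 z)) *ᵥ v = 0 ↔ PP z *ᵥ v = 0 := by
  have h3 := h2 (a1 z) (a2 z) (unit_aT h1 (hz.1 0) (hz.1 1)) (unit_aT h1 (hz.1 2) (hz.1 3))
  exact ⟨h3.2.2.2.2.2.1, h3.2.2.2.2.2.2.1, h3.2.2.2.2.2.2.2.1, h3.2.2.2.2.2.2.2.2⟩

theorem isClosed_VV : IsClosed VV := by
  have h : VV = (⋂ j : Fin 4, {z : Idx → ℝ | cc z j ^ 2 + ss z j ^ 2 = 1}) ∩
      {z | ∑ k, ww z k ^ 2 = 1} := by
    ext z
    simp [VV]
  rw [h]
  refine IsClosed.inter (isClosed_iInter fun j => isClosed_eq ?_ continuous_const)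
    (isClosed_eq ?_ continuous_const)
  · exact ((smooth_cc j).continuous.pow 2).add ((smooth_ss j).continuous.pow 2)
  · exact continuous_finsetSum _ fun k _ => (smooth_ww k).continuous.pow 2

theorem continuous_PPvv (h1 : S_ROOT) : Continuous fun z : Idx → ℝ => PP z *ᵥ vv z := by
  refine continuous_pi fun i => ?_
  unfold Matrix.mulVec dotProduct
  exact continuous_finsetSum _ fun k _ =>
    (smooth_PP h1 i k).continuous.mul (smooth_ww k.castSucc).continuous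

theorem mem_MM_iff (h1 : S_ROOT) (h2 : S_QUAT) (z : Idx → ℝ) :
    z ∈ MM ↔ z ∈ VV ∧ PP z *ᵥ vv z = 0 := by
  constructor
  · rintro ⟨h3, h4⟩
    exact ⟨h3, ((quat_PP h1 h2 h3).2.2.2 _).1 h4⟩
  · rintro ⟨h3, h4⟩
    exact ⟨h3, ((quat_PP h1 h2 h3).2.2.2 _).2 h4⟩

theorem isCompact_MM (h1 : S_ROOT) (h2 : S_QUAT) : IsCompact MM := by
  have hcl : IsClosed MM := by
    have h : MM = VV ∩ {z | PP z *ᵥ vv z = 0} := by
      ext z
      exact mem_MM_iff h1 h2 z
    rw [h]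
    exact isClosed_VV.inter (isClosed_eq (continuous_PPvv h1) continuous_const)
  refine IsCompact.of_isClosed_subset (isCompact_Icc (a := (fun _ : Idx => (-1 : ℝ)))
    (b := fun _ => 1)) hcl ?_
  rintro z ⟨⟨hc, hw⟩, -⟩
  have key : ∀ i, z i ^ 2 ≤ 1 := by
    rintro (j | j | k)
    · have := hc j
      unfold cc ss at this
      nlinarith [sq_nonneg (z (Sum.inr (Sum.inl j)))]
    · have := hc j
      unfold cc ss at this
      nlinarith [sq_nonneg (z (Sum.inl j))]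
    · rw [← hw]
      exact Finset.single_le_sum (f := fun k => ww z k ^ 2) (fun k _ => sq_nonneg _)
        (Finset.mem_univ k)
  rw [Set.mem_Icc]
  constructor
  · intro i
    have := key i
    show -1 ≤ z i
    nlinarith
  · intro i
    have := key i
    show z i ≤ 1
    nlinarith

/-- Index type of the equations. -/
abbrev Kap := Fin 4 ⊕ (Fin 1 ⊕ Fin 2)

/-- The equations of `MM` near a point. -/
def FF (T : (Fin 4 → ℝ) →ₗ[ℝ] (Fin 2 → ℝ)) (z : Idx → ℝ) : Kap → ℝ :=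
  Sum.elim (fun j => cc z j ^ 2 + ss z j ^ 2 - 1)
    (Sum.elim (fun _ => ∑ k, ww z k ^ 2 - 1) (fun i => T (PP z *ᵥ vv z) i))

/-- An enumeration of the equations. -/
def e7 : Fin 7 ≃ Kap := (Fintype.equivFinOfCardEq (by simp)).symm

theorem smooth_FF (h1 : S_ROOT) (T : (Fin 4 → ℝ) →ₗ[ℝ] (Fin 2 → ℝ)) :
    ContDiff ℝ ∞ fun z => FF T z := by
  rw [contDiff_pi]
  rintro (j | _ | i)
  · exact (((smooth_cc j).pow 2).add ((smooth_ss j).pow 2)).sub contDiff_const
  · exact (ContDiff.sum fun k _ => (smooth_ww k).pow 2).sub contDiff_const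
  · have h3 : ContDiff ℝ ∞ fun z : Idx → ℝ => PP z *ᵥ vv z := by
      rw [contDiff_pi]
      intro i
      unfold Matrix.mulVec dotProduct
      exact ContDiff.sum fun k _ => (smooth_PP h1 i k).mul (smooth_ww k.castSucc)
    have h4 : ContDiff ℝ ∞ fun z : Idx → ℝ => T (PP z *ᵥ vv z) :=
      (LinearMap.toContinuousLinearMap T).contDiff.comp h3
    exact (contDiff_pi.1 h4) i

theorem fderiv_eq {f : (Idx → ℝ) → Fin 7 → ℝ} {z v : Idx → ℝ} (hf : DifferentiableAt ℝ f z)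
    {i : Fin 7} {d : ℝ} (h : HasDerivAt (fun t : ℝ => f (z + t • v) i) d 0) :
    fderiv ℝ f z v i = d := by
  have h1 : HasDerivAt (fun t : ℝ => z + t • v) v 0 := by
    simpa using ((hasDerivAt_id (0 : ℝ)).smul_const v).const_add z
  have h2 : HasFDerivAt f (fderiv ℝ f z) (z + (0 : ℝ) • v) := by simpa using hf.hasFDerivAt
  have h3 := h2.comp_hasDerivAt 0 h1
  exact (hasDerivAt_pi.1 h3 i).unique h

theorem hasDerivAt_sq (a b : ℝ) : HasDerivAt (fun t : ℝ => (a + t * b) ^ 2) (2 * a * b) 0 := by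
  have h := (((hasDerivAt_id (0 : ℝ)).mul_const b).const_add a).pow 2
  refine h.congr_deriv ?_
  simp

theorem surj_fderiv (h1 : S_ROOT) (h2 : S_QUAT) {z : Idx → ℝ} (hz : z ∈ MM)
    (T : (Fin 4 → ℝ) →ₗ[ℝ] (Fin 2 → ℝ)) (hT : Function.Surjective T)
    (hT' : ∀ u, T u = 0 ↔ PP z *ᵥ u = 0) :
    Function.Surjective (fderiv ℝ (fun z i => FF T z (e7 i)) z) := by
  obtain ⟨hV, hzP⟩ := (mem_MM_iff h1 h2 z).1 hz
  obtain ⟨hidem, hsym, -, -⟩ := quat_PP h1 h2 hV
  have hsm : ContDiff ℝ ∞ (fun (z : Idx → ℝ) (i : Fin 7) => FF T z (e7 i)) := by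
    rw [contDiff_pi]
    intro i
    exact contDiff_pi.1 (smooth_FF h1 T) (e7 i)
  have hdf : DifferentiableAt ℝ (fun (z : Idx → ℝ) (i : Fin 7) => FF T z (e7 i)) z :=
    hsm.contDiffAt.differentiableAt (by simp)
  -- values of the derivative
  have hval : ∀ (v : Idx → ℝ) (k : Kap) (d : ℝ),
      HasDerivAt (fun t : ℝ => FF T (z + t • v) k) d 0 →
        fderiv ℝ (fun z i => FF T z (e7 i)) z v (e7.symm k) = d := by
    intro v k d h
    refine fderiv_eq hdf ?_
    simpa using h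
  intro y
  -- first direction
  let v1 : Idx → ℝ := Sum.elim (fun j => y (e7.symm (Sum.inl j)) / 2 * cc z j)
    (Sum.elim (fun j => y (e7.symm (Sum.inl j)) / 2 * ss z j)
      (fun k => y (e7.symm (Sum.inr (Sum.inl 0))) / 2 * ww z k))
  have hv1c : ∀ j, fderiv ℝ (fun z i => FF T z (e7 i)) z v1 (e7.symm (Sum.inl j)) =
      y (e7.symm (Sum.inl j)) := by
    intro j
    refine hval v1 _ _ ?_
    have h3 := ((hasDerivAt_sq (cc z j) (y (e7.symm (Sum.inl j)) / 2 * cc z j)).add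
      (hasDerivAt_sq (ss z j) (y (e7.symm (Sum.inl j)) / 2 * ss z j))).sub_const 1
    have h4 : 2 * cc z j * (y (e7.symm (Sum.inl j)) / 2 * cc z j) +
        2 * ss z j * (y (e7.symm (Sum.inl j)) / 2 * ss z j) = y (e7.symm (Sum.inl j)) := by
      have := hV.1 j
      linear_combination (y (e7.symm (Sum.inl j))) * this
    rw [h4] at h3
    exact h3
  have hv1s : ∀ k : Fin 1, fderiv ℝ (fun z i => FF T z (e7 i)) z v1
      (e7.symm (Sum.inr (Sum.inl k))) = y (e7.symm (Sum.inr (Sum.inl k))) := by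
    intro k
    obtain rfl : k = 0 := Subsingleton.elim _ _
    refine hval v1 _ _ ?_
    have h3 := (HasDerivAt.fun_sum (u := Finset.univ) fun (k : Fin 5) _ =>
      hasDerivAt_sq (ww z k) (y (e7.symm (Sum.inr (Sum.inl 0))) / 2 * ww z k)).sub_const 1
    have h4 : ∑ k : Fin 5, 2 * ww z k * (y (e7.symm (Sum.inr (Sum.inl 0))) / 2 * ww z k) =
        y (e7.symm (Sum.inr (Sum.inl 0))) := by
      have := hV.2
      have h5 : ∀ k : Fin 5, 2 * ww z k * (y (e7.symm (Sum.inr (Sum.inl 0))) / 2 * ww z k) =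
          y (e7.symm (Sum.inr (Sum.inl 0))) * ww z k ^ 2 := fun k => by ring
      rw [Finset.sum_congr rfl fun k _ => h5 k, ← Finset.mul_sum, this, mul_one]
    rw [h4] at h3
    exact h3
  -- second direction
  obtain ⟨q0, hq0⟩ := hT (fun i => y (e7.symm (Sum.inr (Sum.inr i))) -
    fderiv ℝ (fun z i => FF T z (e7 i)) z v1 (e7.symm (Sum.inr (Sum.inr i))))
  let q : Fin 4 → ℝ := PP z *ᵥ q0
  have hPq : PP z *ᵥ q = q := by
    show PP z *ᵥ (PP z *ᵥ q0) = PP z *ᵥ q0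
    rw [Matrix.mulVec_mulVec, hidem]
  have hTq : T q = T q0 := by
    have h3 : T (q - q0) = 0 := by
      rw [hT', Matrix.mulVec_sub, hPq, sub_self]
    rw [map_sub, sub_eq_zero] at h3
    exact h3
  let v2 : Idx → ℝ := Sum.elim (fun _ => 0) (Sum.elim (fun _ => 0)
    (fun k => Fin.snoc (α := fun _ => ℝ) q 0 k))
  have hcc : ∀ (t : ℝ) j, cc (z + t • v2) j = cc z j := by
    intro t j
    simp [cc, v2]
  have hss : ∀ (t : ℝ) j, ss (z + t • v2) j = ss z j := by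
    intro t j
    simp [ss, v2]
  have hPP : ∀ t : ℝ, PP (z + t • v2) = PP z := by
    intro t
    have e1 : a1 (z + t • v2) = a1 z := by
      unfold a1
      rw [hcc, hss, hcc, hss]
    have e2 : a2 (z + t • v2) = a2 z := by
      unfold a2
      rw [hcc, hss, hcc, hss]
    unfold PP
    rw [e1, e2]
  have hvv : ∀ t : ℝ, vv (z + t • v2) = vv z + t • q := by
    intro t
    funext k
    simp [vv, ww, v2]
  have hv2c : ∀ j, fderiv ℝ (fun z i => FF T z (e7 i)) z v2 (e7.symm (Sum.inl j)) = 0 := by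
    intro j
    refine hval v2 _ _ ?_
    have h3 : (fun t : ℝ => FF T (z + t • v2) (Sum.inl j)) =
        fun _ => cc z j ^ 2 + ss z j ^ 2 - 1 := by
      funext t
      show cc (z + t • v2) j ^ 2 + ss (z + t • v2) j ^ 2 - 1 = _
      rw [hcc, hss]
    rw [h3]
    exact hasDerivAt_const _ _
  have horth : ∑ k : Fin 4, vv z k * q k = 0 := by
    have h3 : dotProduct (vv z) (PP z *ᵥ q0) = dotProduct (PP z *ᵥ vv z) q0 := by
      rw [Matrix.dotProduct_mulVec, ← Matrix.mulVec_transpose, hsym]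
    have h4 : dotProduct (vv z) q = 0 := by
      show dotProduct (vv z) (PP z *ᵥ q0) = 0
      rw [h3, hzP, zero_dotProduct]
    exact h4
  have hv2s : ∀ k : Fin 1, fderiv ℝ (fun z i => FF T z (e7 i)) z v2
      (e7.symm (Sum.inr (Sum.inl k))) = 0 := by
    intro k
    refine hval v2 _ _ ?_
    have h3 := (HasDerivAt.fun_sum (u := Finset.univ) fun (k : Fin 5) _ =>
      hasDerivAt_sq (ww z k) (Fin.snoc (α := fun _ => ℝ) q 0 k)).sub_const 1
    have h4 : ∑ k : Fin 5, 2 * ww z k * (Fin.snoc (α := fun _ => ℝ) q 0 k : ℝ) = 0 := by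
      rw [Fin.sum_univ_castSucc]
      simp only [Fin.snoc_castSucc, Fin.snoc_last, mul_zero, add_zero]
      have h5 : ∀ k : Fin 4, 2 * ww z k.castSucc * q k = 2 * (vv z k * q k) := fun k => by
        unfold vv
        ring
      rw [Finset.sum_congr rfl fun k _ => h5 k, ← Finset.mul_sum, horth, mul_zero]
    rw [h4] at h3
    exact h3
  have hv2T : ∀ i, fderiv ℝ (fun z i => FF T z (e7 i)) z v2
      (e7.symm (Sum.inr (Sum.inr i))) = T q i := by
    intro i
    refine hval v2 _ _ ?_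
    have h3 : (fun t : ℝ => FF T (z + t • v2) (Sum.inr (Sum.inr i))) = fun t => t * T q i := by
      funext t
      show T (PP (z + t • v2) *ᵥ vv (z + t • v2)) i = _
      rw [hPP, hvv, Matrix.mulVec_add, hzP, zero_add, Matrix.mulVec_smul, hPq, map_smul]
      rfl
    rw [h3]
    simpa using (hasDerivAt_id (0 : ℝ)).mul_const (T q i)
  refine ⟨v1 + v2, ?_⟩
  rw [map_add]
  funext i
  obtain ⟨k, rfl⟩ := e7.symm.surjective i
  rw [Pi.add_apply]
  rcases k with j | k | i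
  · rw [hv1c, hv2c, add_zero]
  · rw [hv1s, hv2s, add_zero]
  · rw [hv2T, hTq, hq0]
    ring

theorem submanifold_MM (h1 : S_ROOT) (h2 : S_QUAT) : SmoothSubmanifold MM 6 := by
  intro z hz
  obtain ⟨hV, hzP⟩ := (mem_MM_iff h1 h2 z).1 hz
  obtain ⟨hidem, hsym, htr, -⟩ := quat_PP h1 h2 hV
  obtain ⟨T, hT, hT'⟩ := exists_T (PP z) hidem htr
  have hcontPP : Continuous fun y : Idx → ℝ => PP y :=
    continuous_pi fun i => continuous_pi fun j => (smooth_PP h1 i j).continuous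
  refine ⟨7, fun z i => FF T z (e7 i),
    {y | (PP z * PP y + (1 - PP z) * (1 - PP y)).det ≠ 0}, by simp, ?_, ?_, ?_, ?_, ?_⟩
  · refine isOpen_ne_fun (Continuous.matrix_det ?_) continuous_const
    exact (continuous_const.matrix_mul hcontPP).add
      (continuous_const.matrix_mul (continuous_const.sub hcontPP))
  · have h3 : PP z * PP z + (1 - PP z) * (1 - PP z) = 1 := by
      rw [sub_mul, mul_sub, mul_sub, hidem]
      simp
    show (PP z * PP z + (1 - PP z) * (1 - PP z)).det ≠ 0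
    rw [h3, Matrix.det_one]
    exact one_ne_zero
  · have hsm : ContDiff ℝ ∞ (fun (z : Idx → ℝ) (i : Fin 7) => FF T z (e7 i)) := by
      rw [contDiff_pi]
      intro i
      exact contDiff_pi.1 (smooth_FF h1 T) (e7 i)
    exact hsm.contDiffOn
  · exact surj_fderiv h1 h2 hz T hT hT'
  · ext y
    constructor
    · rintro ⟨hy, hyU⟩
      refine ⟨hyU, ?_⟩
      obtain ⟨hyV, hyP⟩ := (mem_MM_iff h1 h2 y).1 hy
      funext i
      show FF T y (e7 i) = 0
      rcases e7 i with j | k | i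
      · show cc y j ^ 2 + ss y j ^ 2 - 1 = 0
        rw [hyV.1 j, sub_self]
      · show ∑ k, ww y k ^ 2 - 1 = 0
        rw [hyV.2, sub_self]
      · show T (PP y *ᵥ vv y) i = 0
        rw [hyP, map_zero]
        rfl
    · rintro ⟨hyU, hy⟩
      refine ⟨(mem_MM_iff h1 h2 y).2 ?_, hyU⟩
      have hk : ∀ k : Kap, FF T y k = 0 := by
        intro k
        have := congrFun hy (e7.symm k)
        simpa using this
      have hyV : y ∈ VV := by
        refine ⟨fun j => ?_, ?_⟩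
        · have h3 : cc y j ^ 2 + ss y j ^ 2 - 1 = 0 := hk (Sum.inl j)
          linarith
        · have h3 : ∑ k, ww y k ^ 2 - 1 = 0 := hk (Sum.inr (Sum.inl 0))
          linarith
      refine ⟨hyV, ?_⟩
      have h3 : T (PP y *ᵥ vv y) = 0 := funext fun i => hk (Sum.inr (Sum.inr i))
      rw [hT'] at h3
      refine Matrix.eq_zero_of_mulVec_eq_zero (M := PP z * PP y + (1 - PP z) * (1 - PP y)) hyU ?_
      have hidy := (quat_PP h1 h2 hyV).1
      have h4 : PP y *ᵥ (PP y *ᵥ vv y) = PP y *ᵥ vv y := by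
        rw [Matrix.mulVec_mulVec, hidy]
      have h5 : (1 - PP y) *ᵥ (PP y *ᵥ vv y) = 0 := by
        rw [Matrix.sub_mulVec, Matrix.one_mulVec, h4, sub_self]
      rw [Matrix.add_mulVec, ← Matrix.mulVec_mulVec, ← Matrix.mulVec_mulVec, h4, h3, h5,
        Matrix.mulVec_zero, add_zero]

/-- The packet P33. -/
theorem m_ok (h1 : S_ROOT) (h2 : S_QUAT) : S_M := ⟨isCompact_MM h1 h2, submanifold_MM h1 h2⟩

end

end Pool.Agent.Helper23.AC
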